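import Pool.Agent.Helper38.FM.PencilE

set_option autoImplicit false

/-!
FM-E5b PencilO. The explicit unimodular pencil of an integral point, odd degree `d = 2 k + 1`, with the property `PtOf`.

`G = tri (dA b) oA d`, `B2 = tri (dB b) (oB y₀) d`, `v` the last unit vector, `S = t x₀ G - t B2 - v vᵗ`, `t` the leading coefficient;
`X (t G) - S = t N + v vᵗ`, `N = (X - x₀) G + B2`. The entry `(1, 1)` of the adjugate is `(-1)^(k+1) t^(d-2) (X - x₀)`: vary `b 1`.
-/

open Polynomial Matrix Pool.Agent.Helper32.DZ Pool.Agent.Helper32.FM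

namespace Pool.Agent.Helper38.FM

private lemma block_det {R : Type} [CommRing R] (n : ℕ) (M : Matrix (Fin (n + 1)) (Fin (n + 1)) R)
    (N : Matrix (Fin n) (Fin n) R) (v : Fin n → R) (t : R)
    (hN : ∀ i j : Fin n, M i.castSucc j.castSucc = N i j)
    (hv : ∀ i : Fin n, M i.castSucc (Fin.last n) = v i)
    (hv' : ∀ j : Fin n, M (Fin.last n) j.castSucc = v j)
    (hl : M (Fin.last n) (Fin.last n) = -t) :
    t ^ n * M.det = -t * (Matrix.of fun i j => t * N i j + v i * v j).det := by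
  classical
  set col : Matrix (Fin n) (Fin 1) R := Matrix.of fun i _ => v i with hcol
  set row : Matrix (Fin 1) (Fin n) R := Matrix.of fun _ j => v j with hrow
  set cor : Matrix (Fin 1) (Fin 1) R := Matrix.of fun _ _ => -t with hcor
  have h1 : M.submatrix (finSumFinEquiv : Fin n ⊕ Fin 1 ≃ Fin (n + 1))
      (finSumFinEquiv : Fin n ⊕ Fin 1 ≃ Fin (n + 1)) = fromBlocks N col row cor := by
    ext i j
    rcases i with i | i <;> rcases j with j | j
    · exact hN i j
    · have : (finSumFinEquiv (Sum.inr j : Fin n ⊕ Fin 1) : Fin (n + 1)) = Fin.last n := by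
        apply Fin.ext
        simp [Fin.last]
      simp only [submatrix_apply, this, fromBlocks_apply₁₂]
      exact hv i
    · have : (finSumFinEquiv (Sum.inr i : Fin n ⊕ Fin 1) : Fin (n + 1)) = Fin.last n := by
        apply Fin.ext
        simp [Fin.last]
      simp only [submatrix_apply, this, fromBlocks_apply₂₁]
      exact hv' j
    · have h1 : (finSumFinEquiv (Sum.inr i : Fin n ⊕ Fin 1) : Fin (n + 1)) = Fin.last n := by
        apply Fin.ext
        simp [Fin.last]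
      have h2 : (finSumFinEquiv (Sum.inr j : Fin n ⊕ Fin 1) : Fin (n + 1)) = Fin.last n := by
        apply Fin.ext
        simp [Fin.last]
      simp only [submatrix_apply, h1, h2, fromBlocks_apply₂₂]
      exact hl
  have h2 : M.det = (fromBlocks N col row cor).det := by
    rw [← h1, Matrix.det_submatrix_equiv_self]
  have h3 : (fromBlocks (t • (1 : Matrix (Fin n) (Fin n) R)) col 0 (1 : Matrix (Fin 1) (Fin 1) R)).det
      = t ^ n := by
    rw [Matrix.det_fromBlocks_zero₂₁]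
    simp
  have h4 : fromBlocks (t • (1 : Matrix (Fin n) (Fin n) R)) col 0 (1 : Matrix (Fin 1) (Fin 1) R) *
      fromBlocks N col row cor =
      fromBlocks (Matrix.of fun i j => t * N i j + v i * v j) 0 row cor := by
    rw [fromBlocks_multiply]
    congr 1
    · ext i j
      simp [Matrix.mul_apply, hcol, hrow]
    · ext i j
      simp [Matrix.mul_apply, hcol, hcor]
      ring
    · simp
    · simp
  have h5 := congrArg Matrix.det h4
  rw [Matrix.det_mul, h3, ← h2, Matrix.det_fromBlocks_zero₁₂] at h5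
  rw [h5]
  have : cor.det = -t := by simp [hcor]
  rw [this]
  ring

/-- the matrix `t N + v vᵗ` -/
def oq {R : Type} [CommRing R] (b : ℕ → R) (c x t : R) (k : ℕ) :
    Matrix (Fin (2 * k + 1)) (Fin (2 * k + 1)) R :=
  Matrix.of fun i j =>
    t * tri (fun i => x * dA b i + dB b i) (fun i => x * oA i + oB c i) (2 * k + 1) i j +
      (if (i : ℕ) = 2 * k then 1 else 0) * (if (j : ℕ) = 2 * k then 1 else 0)

theorem oq_det {R : Type} [CommRing R] [IsDomain R] (b : ℕ → R) (c x t : R) (k : ℕ) (hk : 1 ≤ k)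
    (ht : t ≠ 0) (h1 : b (2 * k + 1) = t) (h2 : b (2 * k + 2) = 0) :
    (oq b c x t k).det = -t ^ (2 * k) * ((-1) ^ (k + 1) * (c ^ 2 +
      ∑ i ∈ Finset.range (2 * (k + 1)), b (i + 1) * x ^ (i + 1))) := by
  obtain ⟨M, hM⟩ : ∃ M : Matrix (Fin (2 * k + 1 + 1)) (Fin (2 * k + 1 + 1)) R,
    M = tri (fun i => x * dA b i + dB b i) (fun i => x * oA i + oB c i) (2 * k + 1 + 1) := ⟨_, rfl⟩
  have hblock := block_det (2 * k + 1) M
    (tri (fun i => x * dA b i + dB b i) (fun i => x * oA i + oB c i) (2 * k + 1))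
    (fun i => if (i : ℕ) = 2 * k then 1 else 0) t ?_ ?_ ?_ ?_
  · have hdet : M.det = (-1) ^ (k + 1) * (c ^ 2 +
        ∑ i ∈ Finset.range (2 * (k + 1)), b (i + 1) * x ^ (i + 1)) := by
      rw [hM]
      exact tri_pencil b c x (k + 1) (by omega)
    rw [← hdet]
    have h3 : t * ((oq b c x t k).det + t ^ (2 * k) * M.det) = 0 := by
      have h4 : t ^ (2 * k + 1) = t * t ^ (2 * k) := by ring
      rw [h4] at hblock
      unfold oq
      linear_combination hblock
    rcases mul_eq_zero.mp h3 with h5 | h5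
    · exact absurd h5 ht
    · linear_combination h5
  · intro i j
    simp [hM, tri]
  · intro i
    have hi := i.2
    simp only [hM, tri, Matrix.of_apply, Fin.val_castSucc, Fin.val_last]
    rw [if_neg (by omega)]
    by_cases h1 : (i : ℕ) = 2 * k
    · rw [if_pos (by omega), if_pos h1, h1]
      have e1 : (2 * k) % 2 = 0 := by omega
      have e2 : ¬ (2 * k = 0) := by omega
      have e3 : ¬ (k = 0) := by omega
      simp [oA, oB, e3]
    · rw [if_neg (by omega), if_neg (by omega), if_neg h1]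
  · intro j
    have hj := j.2
    simp only [hM, tri, Matrix.of_apply, Fin.val_castSucc, Fin.val_last]
    rw [if_neg (by omega), if_neg (by omega)]
    by_cases h1 : (j : ℕ) = 2 * k
    · rw [if_pos (by omega), if_pos h1, h1]
      have e1 : (2 * k) % 2 = 0 := by omega
      have e2 : ¬ (2 * k = 0) := by omega
      have e3 : ¬ (k = 0) := by omega
      simp [oA, oB, e3]
    · rw [if_neg (by omega), if_neg h1]
  · simp only [hM, tri, Matrix.of_apply, Fin.val_last, if_true]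
    have e1 : (2 * k + 1) % 2 = 1 := by omega
    have e2 : ¬ (2 * k + 1 = 0) := by omega
    simp only [dA, dB, e1, e2, if_false, if_true]
    rw [h1]
    have e3 : 2 * k + 1 + 1 = 2 * k + 2 := rfl
    rw [e3, h2]
    ring

theorem oq_adj {R : Type} [CommRing R] [IsDomain R] (b : ℕ → R) (c x t : R) (k : ℕ) (hk : 1 ≤ k)
    (ht : t ≠ 0) (h1 : b (2 * k + 1) = t) (h2 : b (2 * k + 2) = 0) (h3 : 1 < 2 * k + 1) :
    (oq b c x t k).adjugate ⟨1, h3⟩ ⟨1, h3⟩ = (-1) ^ (k + 1) * t ^ (2 * k - 1) * x := by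
  obtain ⟨b', hb'⟩ : ∃ b', b' = Function.update b 1 (b 1 - 1) := ⟨_, rfl⟩
  have hd := oq_det b c x t k hk ht h1 h2
  have hd' := oq_det b' c x t k hk ht
    (by rw [hb', Function.update_of_ne (by omega), h1])
    (by rw [hb', Function.update_of_ne (by omega), h2])
  have hu : oq b' c x t k = (oq b c x t k).updateRow ⟨1, h3⟩
      ((oq b c x t k) ⟨1, h3⟩ + t • Pi.single ⟨1, h3⟩ 1) := by
    ext i j
    rw [Matrix.updateRow_apply]
    unfold oq
    rw [hb', tri_update b c x (2 * k + 1) h3]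
    simp only [Matrix.of_apply, Pi.add_apply, Pi.smul_apply, smul_eq_mul]
    by_cases hi : i = ⟨1, h3⟩
    · subst hi
      rw [if_pos rfl, Matrix.updateRow_self, Pi.add_apply]
      ring
    · rw [if_neg hi, Matrix.updateRow_ne hi]
  rw [hu, Matrix.det_updateRow_add, Matrix.updateRow_eq_self, Matrix.det_updateRow_smul,
    ← Matrix.adjugate_apply, hd] at hd'
  have h4 : ∑ i ∈ Finset.range (2 * (k + 1)), b' (i + 1) * x ^ (i + 1) =
      ∑ i ∈ Finset.range (2 * (k + 1)), b (i + 1) * x ^ (i + 1) - x := by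
    have e : 2 * (k + 1) = (2 * k + 1) + 1 := by ring
    rw [e, Finset.sum_range_succ' _ (2 * k + 1), Finset.sum_range_succ' _ (2 * k + 1)]
    have h5 : ∀ i ∈ Finset.range (2 * k + 1),
        b' (i + 1 + 1) * x ^ (i + 1 + 1) = b (i + 1 + 1) * x ^ (i + 1 + 1) := by
      intro i _
      rw [hb', Function.update_of_ne (by omega)]
    rw [Finset.sum_congr rfl h5, hb']
    simp only [zero_add, Function.update_self, pow_one]
    ring
  rw [h4] at hd'
  have h5 : t ^ (2 * k) = t * t ^ (2 * k - 1) := by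
    rw [← pow_succ']
    congr 1
    omega
  rw [h5] at hd'
  have h6 : t * ((oq b c x t k).adjugate ⟨1, h3⟩ ⟨1, h3⟩ -
      (-1) ^ (k + 1) * t ^ (2 * k - 1) * x) = 0 := by
    linear_combination hd'
  rcases mul_eq_zero.mp h6 with h7 | h7
  · exact absurd h7 ht
  · exact sub_eq_zero.1 h7

theorem pt_odd (d : ℕ) (hd : Odd d) (h3 : 3 ≤ d) (a : Fin (d + 1) → ℤ) (hl : a (Fin.last d) ≠ 0)
    (x₀ y₀ : ℤ) (hxy : y₀ ^ 2 = ∑ i, a i * x₀ ^ (i : ℕ)) :
    ∃ G S : Matrix (Fin d) (Fin d) ℤ, G.IsSymm ∧ S.IsSymm ∧ G.det = (-1) ^ ((d - 1) / 2) ∧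
      NegSq (a (Fin.last d)) S ∧
      pen (a (Fin.last d) • G) S =
        C (-(-1) ^ ((d + 1) / 2) * (a (Fin.last d)) ^ (d - 1)) * pol a ∧
      PtOf (a (Fin.last d) • G) S ((-1) ^ ((d + 1) / 2) * (a (Fin.last d)) ^ (d - 2)) x₀ := by
  obtain ⟨k, rfl⟩ := hd
  have hk : 1 ≤ k := by omega
  obtain ⟨t, ht⟩ : ∃ t, t = a (Fin.last (2 * k + 1)) := ⟨_, rfl⟩
  rw [← ht]
  rw [← ht] at hl
  obtain ⟨b, hb0, hbl, hbz, hbs⟩ := shift_data (2 * k) a (by rw [← ht]; exact hl) x₀ y₀ hxy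
  rw [← ht] at hbl
  obtain ⟨G, hG⟩ : ∃ G : Matrix (Fin (2 * k + 1)) (Fin (2 * k + 1)) ℤ,
    G = tri (dA b) (oA (S := ℤ)) (2 * k + 1) := ⟨_, rfl⟩
  obtain ⟨B2, hB2⟩ : ∃ B2 : Matrix (Fin (2 * k + 1)) (Fin (2 * k + 1)) ℤ,
    B2 = tri (dB b) (oB y₀) (2 * k + 1) := ⟨_, rfl⟩
  obtain ⟨v, hv⟩ : ∃ v : Fin (2 * k + 1) → ℤ, ∀ i, v i = if (i : ℕ) = 2 * k then 1 else 0 :=
    ⟨fun i => if (i : ℕ) = 2 * k then 1 else 0, fun i => rfl⟩
  have hGs : G.IsSymm := by
    rw [hG]
    exact tri_symm' _ _ _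
  have hBs : B2.IsSymm := by
    rw [hB2]
    exact tri_symm' _ _ _
  obtain ⟨S, hS⟩ : ∃ S : Matrix (Fin (2 * k + 1)) (Fin (2 * k + 1)) ℤ,
    S = Matrix.of fun i j => t * x₀ * G i j - t * B2 i j - v i * v j := ⟨_, rfl⟩
  have hSs : S.IsSymm := by
    ext i j
    simp only [hS, Matrix.transpose_apply, Matrix.of_apply]
    rw [hGs.apply, hBs.apply]
    ring
  have hGd : G.det = (-1) ^ k := by
    have h1 := tri_A' (S := ℤ) b (k + 1) (by omega)
    have e : 2 * (k + 1) - 1 = 2 * k + 1 := by omega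
    rw [e] at h1
    rw [hG]
    simpa using h1
  have htC : (C t : ℤ[X]) ≠ 0 := by
    rw [Ne, C_eq_zero]
    exact hl
  have hpm : pm (t • G) S = oq (fun k => (C (b k) : ℤ[X])) (C y₀) (X - C x₀) (C t) k := by
    unfold oq
    rw [tri_C', ← hG, ← hB2]
    unfold pm
    ext1 i j
    simp only [Matrix.sub_apply, Matrix.smul_apply, Matrix.map_apply, Matrix.add_apply, smul_eq_mul,
      Matrix.of_apply, hS, map_sub, map_mul, hv]
    have e1 : ∀ p : Prop, [Decidable p] → (C (if p then (1 : ℤ) else 0) : ℤ[X]) = if p then 1 else 0 := by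
      intro p _
      split_ifs <;> simp
    rw [e1, e1]
    ring
  have e1 : (2 * k + 1 + 1) / 2 = k + 1 := by omega
  have e2 : 2 * k + 1 - 1 = 2 * k := by omega
  have e3 : 2 * k + 1 - 2 = 2 * k - 1 := by omega
  have e4 : (2 * k + 1 - 1) / 2 = k := by omega
  have hsum : (C y₀ : ℤ[X]) ^ 2 + ∑ i ∈ Finset.range (2 * (k + 1)),
      (fun k => (C (b k) : ℤ[X])) (i + 1) * (X - C x₀) ^ (i + 1) = pol a := by
    have e5 : 2 * (k + 1) = (2 * k + 1) + 1 := by ring
    rw [e5, Finset.sum_range_succ]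
    simp only
    rw [hbz, map_zero, zero_mul, add_zero, hbs]
  refine ⟨G, S, hGs, hSs, ?_, ⟨v, ?_⟩, ?_, ?_⟩
  · rw [hGd, e4]
  · intro i j
    refine ⟨x₀ * G i j - B2 i j, ?_⟩
    simp only [hS, Matrix.of_apply]
    ring
  · have h1 : pen (t • G) S = (pm (t • G) S).det := rfl
    rw [h1, hpm, oq_det _ _ _ _ k hk htC (by rw [hbl]) (by rw [← map_zero (C : ℤ →+* ℤ[X]), ← hbz]),
      hsum, e1, e2]
    simp only [C_mul, C_neg, C_pow, C_1]
    ring
  · have h1k : 1 < 2 * k + 1 := by omega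
    refine ⟨Pi.single ⟨1, h1k⟩ 1, ?_⟩
    have hv' : (fun i => (C ((Pi.single (⟨1, h1k⟩ : Fin (2 * k + 1)) (1 : ℤ) :
        Fin (2 * k + 1) → ℤ) i) : ℤ[X])) = Pi.single (⟨1, h1k⟩ : Fin (2 * k + 1)) (1 : ℤ[X]) := by
      funext i
      by_cases hi : i = ⟨1, h1k⟩
      · subst hi
        simp
      · rw [Pi.single_eq_of_ne hi, Pi.single_eq_of_ne hi, map_zero]
    rw [hv', Matrix.mulVec_single_one, single_dotProduct, one_mul, Matrix.col_apply, hpm,
      oq_adj _ _ _ _ k hk htC (by rw [hbl]) (by rw [← map_zero (C : ℤ →+* ℤ[X]), ← hbz]) h1k, e1, e3]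
    simp only [C_mul, C_neg, C_pow, C_1]

end Pool.Agent.Helper38.FM
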