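import Pool.Agent.Helper32.FM.EvenClasses
import Pool.Agent.Helper32.FM.OddClasses
import Pool.Agent.Helper38.FM.PencilO
import Pool.Agent.Helper38.DZR.SqfPartR

set_option autoImplicit false

/-!
FM-E7 Points. The number of pairs `(f, class of integral points)`, even and odd degree.

`even_points`: `T` a finite set of pairs `(a, x)`, `a` in the box and good, `∑ a_i x^i` a square, at most one `x` in every class
(`CRel`) for the same `a`: `#T ≤ C H^(d+1) (log H)^(-1/64)`. `odd_points`: the same for the `a` whose last coefficient has a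
squarefree divisor `q ≥ H / (log H)^β`; all but `C H (log H)^(-γ)` integers `α`, `|α| ≤ H`, `α ≠ 0`, have such a divisor.
-/

open Polynomial Matrix Pool.Agent.Helper32.DZ Pool.Agent.Helper32.FM

namespace Pool.Agent.Helper38.FM

private theorem conj_one {N : ℕ} (P R P' R' g : Matrix (Fin N) (Fin N) ℤ)
    (hg : g.det = 1 ∨ g.det = -1) (e1 : P' = gᵀ * P * g) (e2 : R' = gᵀ * R * g) :
    pen P' R' = pen P R := by
  rw [e1, e2, pen_conj]
  rcases hg with h | h <;> rw [h] <;> simp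

private theorem roots_of_good {n H : ℕ} (a : Fin (n + 1) → ℤ) (hb : ∀ k, |a k| ≤ (H : ℤ))
    (hg : Good a) : ∃ θ : Fin n → ℂ, Roots H a θ := by
  obtain ⟨hl, e, he, hev⟩ := hg
  exact ⟨e, hb, hl, he, hev⟩

private theorem roots_pol {n H : ℕ} (a : Fin (n + 1) → ℤ) (θ : Fin n → ℂ) (hR : Roots H a θ)
    (t : Fin n) : Polynomial.aeval (θ t) (pol a) = 0 := by
  rw [pol_eval, hR.eval, Finset.prod_eq_zero (Finset.mem_univ t) (sub_self _), mul_zero]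

/-- at most one point in every class -/
def OneEach {n : ℕ} (H : ℕ) (T : Finset ((Fin (n + 1) → ℤ) × ℤ)) : Prop :=
  ∀ (a : Fin (n + 1) → ℤ) (x x' : ℤ), (a, x) ∈ T → (a, x') ∈ T →
    ∀ θ : Fin n → ℂ, Roots H a θ → CRel θ x x' → x = x'

theorem even_points (m : ℕ) (hm : Odd m) : ∃ C : ℝ, 1 ≤ C ∧ ∀ H : ℕ, 2 ≤ H →
    ∀ T : Finset ((Fin (m + 1 + 1) → ℤ) × ℤ),
      (∀ p ∈ T, (∀ k, |p.1 k| ≤ (H : ℤ)) ∧ Good p.1 ∧
        ∃ y : ℤ, y ^ 2 = ∑ i, p.1 i * p.2 ^ (i : ℕ)) → OneEach H T →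
      (T.card : ℝ) ≤ C * (H : ℝ) ^ (m + 2) * (Real.log H) ^ (-(1 / 64 : ℝ)) := by
  classical
  obtain ⟨C0, hC0, h0⟩ := even_classes m hm
  refine ⟨C0, hC0, fun H hH T hT hone => ?_⟩
  have hch : ∀ p : (Fin (m + 1 + 1) → ℤ) × ℤ, ∃ A B : Matrix (Fin (m + 1)) (Fin (m + 1)) ℤ,
      p ∈ T → A.IsSymm ∧ B.IsSymm ∧ pen A B = C ((-1) ^ ((m + 1) / 2)) * pol p.1 ∧
      (∀ g : Matrix (Fin (m + 1)) (Fin (m + 1)) ℤ, (g.det = 1 ∨ g.det = -1) →
        PropA 1 ((-1) ^ ((m + 1) / 2 - 1)) (gᵀ * A * g)) ∧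
      PtOf A B ((-1) ^ ((m + 1) / 2 - 1)) p.2 := by
    intro p
    by_cases hp : p ∈ T
    · obtain ⟨h1, h2, y, hy⟩ := hT p hp
      obtain ⟨A, B, h⟩ := pt_even m hm p.1 h2.1 p.2 y hy
      exact ⟨A, B, fun _ => h⟩
    · exact ⟨0, 0, fun h => absurd h hp⟩
  choose A B hAB using hch
  refine h0 H hH _ T (fun p => p.1) A B ?_ ?_
  · intro p hp
    obtain ⟨h1, h2, h3, h4, h5⟩ := hAB p hp
    exact ⟨(hT p hp).1, (hT p hp).2.1, h1, h2, h3, h4⟩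
  · rintro ⟨a, x⟩ hp ⟨a', x'⟩ hp' g hg e1 e2
    obtain ⟨h1, h2, h3, h4, h5⟩ := hAB _ hp
    obtain ⟨h1', h2', h3', h4', h5'⟩ := hAB _ hp'
    have hpen := conj_one _ _ _ _ g hg e1 e2
    have hC : (C ((-1) ^ ((m + 1) / 2)) : ℤ[X]) ≠ 0 := by
      rw [Ne, C_eq_zero]
      exact pow_ne_zero _ (by norm_num)
    rw [h3, h3'] at hpen
    have ha : a' = a := pol_inj _ _ (mul_left_cancel₀ hC hpen)
    subst ha
    have h6 : PtOf (A (a', x')) (B (a', x')) ((-1) ^ ((m + 1) / 2 - 1)) x := by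
      rw [e1, e2]
      exact ptOf_conj _ _ g hg _ _ h5
    obtain ⟨θ, hθ⟩ := roots_of_good a' (hT _ hp).1 (hT _ hp).2.1
    have h7 : CRel θ x x' := by
      refine crel_of_ptOf (A (a', x')) (B (a', x')) h1' h2' _ (pow_ne_zero _ (by norm_num)) x x' h6
        h5' θ ?_
      intro t
      rw [h3', map_mul, roots_pol a' θ hθ t, mul_zero]
    rw [hone a' x x' hp hp' θ hθ h7]

theorem odd_points_t (m : ℕ) (hm : Even m) (h2 : 2 ≤ m) : ∃ K1 : ℕ, ∀ t H : ℕ, 2 ≤ H →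
    ∀ T : Finset ((Fin (m + 1 + 1) → ℤ) × ℤ),
      (∀ p ∈ T, (∀ k, |p.1 k| ≤ (H : ℤ)) ∧ Good p.1 ∧
        (∃ y : ℤ, y ^ 2 = ∑ i, p.1 i * p.2 ^ (i : ℕ)) ∧
        ∃ q : ℕ, Squarefree q ∧ (q : ℤ) ∣ p.1 (Fin.last (m + 1)) ∧ (H : ℝ) ≤ 2 ^ t * q) →
      OneEach H T →
      (T.card : ℝ) ≤ 2 ^ (K1 * (t + 1)) * (H : ℝ) ^ (m + 2) * (Real.log H) ^ (-(1 / 8 : ℝ)) := by
  classical
  obtain ⟨K1, h0⟩ := odd_classes m hm h2
  refine ⟨K1, fun t H hH T hT hone => ?_⟩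
  have hch : ∀ p : (Fin (m + 1 + 1) → ℤ) × ℤ, ∃ G S : Matrix (Fin (m + 1)) (Fin (m + 1)) ℤ,
      p ∈ T → G.IsSymm ∧ S.IsSymm ∧ G.det = (-1) ^ ((m + 1 - 1) / 2) ∧
      NegSq (p.1 (Fin.last (m + 1))) S ∧
      pen (p.1 (Fin.last (m + 1)) • G) S =
        C (-(-1) ^ ((m + 1 + 1) / 2) * (p.1 (Fin.last (m + 1))) ^ (m + 1 - 1)) * pol p.1 ∧
      PtOf (p.1 (Fin.last (m + 1)) • G) S
        ((-1) ^ ((m + 1 + 1) / 2) * (p.1 (Fin.last (m + 1))) ^ (m + 1 - 2)) p.2 := by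
    intro p
    by_cases hp : p ∈ T
    · obtain ⟨h1, h2', ⟨y, hy⟩, h3⟩ := hT p hp
      obtain ⟨G, S, h⟩ := pt_odd (m + 1) hm.add_one (by omega) p.1 h2'.1 p.2 y hy
      exact ⟨G, S, fun _ => h⟩
    · exact ⟨0, 0, fun h => absurd h hp⟩
  choose G S hGS using hch
  refine h0 t H hH _ T (fun p => p.1) G S ?_ ?_
  · intro p hp
    obtain ⟨h1, h2', h3, h4, h5, h6⟩ := hGS p hp
    refine ⟨(hT p hp).1, (hT p hp).2.1, h1, h2', ?_, h4, h5, (hT p hp).2.2.2⟩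
    rw [h3]
    exact neg_one_pow_eq_or ℤ _
  · rintro ⟨a, x⟩ hp ⟨a', x'⟩ hp' g hg ha e1 e2
    obtain ⟨h1, h2', h3, h4, h5, h6⟩ := hGS _ hp
    obtain ⟨k1, k2, k3, k4, k5, k6⟩ := hGS _ hp'
    have ha' : a' = a := ha
    subst ha'
    have hl : a' (Fin.last (m + 1)) ≠ 0 := (hT _ hp).2.1.1
    have e3 : a' (Fin.last (m + 1)) • G (a', x') =
        gᵀ * (a' (Fin.last (m + 1)) • G (a', x)) * g := by
      rw [e1, Matrix.mul_smul, Matrix.smul_mul]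
    have h7 : PtOf (a' (Fin.last (m + 1)) • G (a', x')) (S (a', x'))
        ((-1) ^ ((m + 1 + 1) / 2) * (a' (Fin.last (m + 1))) ^ (m + 1 - 2)) x := by
      rw [e3, e2]
      exact ptOf_conj _ _ g hg _ _ h6
    obtain ⟨θ, hθ⟩ := roots_of_good a' (hT _ hp).1 (hT _ hp).2.1
    have h8 : CRel θ x x' := by
      refine crel_of_ptOf (a' (Fin.last (m + 1)) • G (a', x')) (S (a', x')) (k1.smul _) k2 _
        (mul_ne_zero (pow_ne_zero _ (by norm_num)) (pow_ne_zero _ hl)) x x' h7 k6 θ ?_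
      intro t
      rw [k5, map_mul, roots_pol a' θ hθ t, mul_zero]
    rw [hone a' x x' hp hp' θ hθ h8]

theorem odd_points (m : ℕ) (hm : Even m) (h2 : 2 ≤ m) : ∃ C β γ : ℝ, 1 ≤ C ∧ 0 < β ∧ 0 < γ ∧
    ∀ H : ℕ, 2 ≤ H →
    (({α : ℤ | α ≠ 0 ∧ |α| ≤ (H : ℤ) ∧ ¬ ∃ q : ℕ, Squarefree q ∧ (q : ℤ) ∣ α ∧
        (H : ℝ) ≤ (Real.log H) ^ β * q}.ncard : ℕ) : ℝ) ≤ C * H * (Real.log H) ^ (-γ) ∧
    ∀ T : Finset ((Fin (m + 1 + 1) → ℤ) × ℤ),
      (∀ p ∈ T, (∀ k, |p.1 k| ≤ (H : ℤ)) ∧ Good p.1 ∧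
        (∃ y : ℤ, y ^ 2 = ∑ i, p.1 i * p.2 ^ (i : ℕ)) ∧
        ∃ q : ℕ, Squarefree q ∧ (q : ℤ) ∣ p.1 (Fin.last (m + 1)) ∧
          (H : ℝ) ≤ (Real.log H) ^ β * q) →
      OneEach H T →
      (T.card : ℝ) ≤ C * (H : ℝ) ^ (m + 2) * (Real.log H) ^ (-γ) := by
  obtain ⟨K0, hK0⟩ := odd_points_t m hm h2
  obtain ⟨K, hK⟩ : ∃ K : ℕ, K = K0 + 1 := ⟨_, rfl⟩
  have hK1 : (1 : ℝ) ≤ K := by
    rw [hK]
    push_cast
    have : (0 : ℝ) ≤ K0 := Nat.cast_nonneg _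
    linarith
  obtain ⟨β, hβ⟩ : ∃ β : ℝ, β = 1 / (16 * K) := ⟨_, rfl⟩
  have hβ0 : 0 < β := by rw [hβ]; positivity
  have hβ1 : β ≤ 1 / 16 := by
    rw [hβ]
    apply one_div_le_one_div_of_le (by norm_num)
    linarith
  have hβK : β * K = 1 / 16 := by
    rw [hβ]
    field_simp
  have hl2 : 0 < Real.log 2 := Real.log_pos (by norm_num)
  refine ⟨4 ^ K * 2 + 16, β, β / 4, ?_, hβ0, by linarith, fun H hH => ?_⟩
  · have : (1 : ℝ) ≤ 4 ^ K := one_le_pow₀ (by norm_num)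
    linarith
  have hHr : (2 : ℝ) ≤ H := by exact_mod_cast hH
  have hH0 : (0 : ℝ) < H := by linarith
  obtain ⟨x, hx⟩ : ∃ x : ℝ, x = Real.log H := ⟨_, rfl⟩
  rw [← hx]
  have hx0 : 0 < x := by
    rw [hx]
    exact Real.log_pos (by linarith)
  have hxh : (1 : ℝ) / 2 ≤ x := by
    rw [hx]
    have h1 := Real.log_le_log (by norm_num) hHr
    have h3 := Real.log_two_gt_d9
    linarith
  have hxc : 0 < x ^ (-(β / 4)) := Real.rpow_pos_of_pos hx0 _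
  -- a lower bound for small `x`
  have hsm : x < 1 → 1 ≤ x ^ (-(β / 4)) := fun h =>
    Real.one_le_rpow_of_pos_of_le_one_of_nonpos hx0 h.le (by linarith)
  refine ⟨?_, fun T hT hone => ?_⟩
  · rcases le_or_gt 1 x with hx1 | hx1
    · obtain ⟨u, hu⟩ : ∃ u : ℕ, u = ⌊β * Real.log x / (4 * Real.log 2)⌋₊ := ⟨_, rfl⟩
      have hlx : 0 ≤ Real.log x := Real.log_nonneg hx1
      have hu1 : (u : ℝ) * (4 * Real.log 2) ≤ β * Real.log x := by
        rw [← le_div_iff₀ (by positivity), hu]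
        exact Nat.floor_le (by positivity)
      have hu2 : β * Real.log x ≤ ((u : ℝ) + 1) * (4 * Real.log 2) := by
        rw [← div_le_iff₀ (by positivity), hu]
        exact (Nat.lt_floor_add_one _).le
      have h3 : (2 : ℝ) ^ (4 * u) ≤ x ^ β := by
        rw [← Real.log_le_log_iff (by positivity) (Real.rpow_pos_of_pos hx0 _), Real.log_pow,
          Real.log_rpow hx0]
        push_cast
        linarith
      have h4 : x ^ (β / 4) ≤ 2 ^ (u + 1) := by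
        rw [← Real.log_le_log_iff (Real.rpow_pos_of_pos hx0 _) (by positivity), Real.log_pow,
          Real.log_rpow hx0]
        push_cast
        linarith
      have h5 := Pool.Agent.Helper38.DZR.sqf_part_r u H (by omega)
      have hfin : {α : ℤ | α ≠ 0 ∧ |α| ≤ (H : ℤ) ∧
            ¬ ∃ q : ℕ, Squarefree q ∧ (q : ℤ) ∣ α ∧ (H : ℝ) ≤ 2 ^ (4 * u) * q}.Finite := by
        refine (Set.finite_Icc (-(H : ℤ)) (H : ℤ)).subset ?_
        intro α hα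
        exact abs_le.1 hα.2.1
      have h6 : {α : ℤ | α ≠ 0 ∧ |α| ≤ (H : ℤ) ∧ ¬ ∃ q : ℕ, Squarefree q ∧ (q : ℤ) ∣ α ∧
          (H : ℝ) ≤ x ^ β * q} ⊆ {α : ℤ | α ≠ 0 ∧ |α| ≤ (H : ℤ) ∧
            ¬ ∃ q : ℕ, Squarefree q ∧ (q : ℤ) ∣ α ∧ (H : ℝ) ≤ 2 ^ (4 * u) * q} := by
        rintro α ⟨g1, g2, g3⟩
        refine ⟨g1, g2, ?_⟩
        rintro ⟨q, q1, q2, q3⟩
        exact g3 ⟨q, q1, q2, q3.trans (mul_le_mul_of_nonneg_right h3 (Nat.cast_nonneg _))⟩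
      have h7 : (({α : ℤ | α ≠ 0 ∧ |α| ≤ (H : ℤ) ∧ ¬ ∃ q : ℕ, Squarefree q ∧ (q : ℤ) ∣ α ∧
          (H : ℝ) ≤ x ^ β * q}.ncard : ℕ) : ℝ) ≤ 8 * (H : ℝ) / 2 ^ u := by
        refine le_trans ?_ h5
        exact_mod_cast Set.ncard_le_ncard h6 hfin
      refine h7.trans ?_
      have h8 : (1 : ℝ) / 2 ^ u ≤ 2 * x ^ (-(β / 4)) := by
        rw [Real.rpow_neg hx0.le, ← div_eq_mul_inv, div_le_div_iff₀ (by positivity)
          (Real.rpow_pos_of_pos hx0 _), one_mul]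
        rw [pow_succ] at h4
        linarith
      have h9 : (0 : ℝ) ≤ 4 ^ K * 2 * H * x ^ (-(β / 4)) := by positivity
      calc 8 * (H : ℝ) / 2 ^ u = 8 * H * (1 / 2 ^ u) := by ring
        _ ≤ 8 * H * (2 * x ^ (-(β / 4))) := mul_le_mul_of_nonneg_left h8 (by positivity)
        _ ≤ (4 ^ K * 2 + 16) * H * x ^ (-(β / 4)) := by linarith
    · have hfin : {α : ℤ | α ≠ 0 ∧ |α| ≤ (H : ℤ) ∧ ¬ ∃ q : ℕ, Squarefree q ∧ (q : ℤ) ∣ α ∧
          (H : ℝ) ≤ x ^ β * q} ⊆ (Finset.Icc (-(H : ℤ)) (H : ℤ) : Finset ℤ) := by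
        intro α hα
        rw [Finset.mem_coe, Finset.mem_Icc]
        exact abs_le.1 hα.2.1
      have h3 := Set.ncard_le_ncard hfin (Finset.finite_toSet _)
      rw [Set.ncard_coe_finset, Int.card_Icc] at h3
      have h4 : (({α : ℤ | α ≠ 0 ∧ |α| ≤ (H : ℤ) ∧ ¬ ∃ q : ℕ, Squarefree q ∧ (q : ℤ) ∣ α ∧
          (H : ℝ) ≤ x ^ β * q}.ncard : ℕ) : ℝ) ≤ 3 * H := by
        have h5 : ({α : ℤ | α ≠ 0 ∧ |α| ≤ (H : ℤ) ∧ ¬ ∃ q : ℕ, Squarefree q ∧ (q : ℤ) ∣ α ∧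
          (H : ℝ) ≤ x ^ β * q}.ncard : ℕ) ≤ 3 * H := by omega
        exact_mod_cast h5
      refine h4.trans ?_
      have h5 := hsm hx1
      have h6 : (0 : ℝ) ≤ 4 ^ K * 2 := by positivity
      calc 3 * (H : ℝ) ≤ (4 ^ K * 2 + 16) * H := by nlinarith
        _ ≤ (4 ^ K * 2 + 16) * H * x ^ (-(β / 4)) := le_mul_of_one_le_right (by positivity) h5
  · have hHp : (0 : ℝ) ≤ (H : ℝ) ^ (m + 2) := by positivity
    rcases le_or_gt 1 x with hx1 | hx1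
    · obtain ⟨t, ht⟩ : ∃ t : ℕ, t = ⌈β * Real.log x / Real.log 2⌉₊ := ⟨_, rfl⟩
      have hlx : 0 ≤ Real.log x := Real.log_nonneg hx1
      have ht1 : β * Real.log x ≤ (t : ℝ) * Real.log 2 := by
        rw [← div_le_iff₀ hl2, ht]
        exact Nat.le_ceil _
      have ht2 : ((t : ℝ) - 1) * Real.log 2 ≤ β * Real.log x := by
        rw [← le_div_iff₀ hl2, ht]
        have := Nat.ceil_lt_add_one (show 0 ≤ β * Real.log x / Real.log 2 by positivity)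
        linarith
      have h3 : x ^ β ≤ 2 ^ t := by
        rw [← Real.log_le_log_iff (Real.rpow_pos_of_pos hx0 _) (by positivity), Real.log_pow,
          Real.log_rpow hx0]
        exact ht1
      have h4 : (2 : ℝ) ^ (K0 * (t + 1)) ≤ 4 ^ K * x ^ (1 / 16 : ℝ) := by
        have e1 : (2 : ℝ) ^ (K0 * (t + 1)) ≤ 2 ^ (K * (t + 1)) := by
          apply pow_le_pow_right₀ (by norm_num)
          apply Nat.mul_le_mul_right
          omega
        refine e1.trans ?_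
        rw [← Real.log_le_log_iff (by positivity)
          (mul_pos (by positivity) (Real.rpow_pos_of_pos hx0 _)), Real.log_pow,
          Real.log_mul (by positivity) (Real.rpow_pos_of_pos hx0 _).ne', Real.log_pow,
          Real.log_rpow hx0]
        have e2 : Real.log 4 = 2 * Real.log 2 := by
          have : (4 : ℝ) = 2 ^ 2 := by norm_num
          rw [this, Real.log_pow]
          push_cast
          ring
        rw [e2, ← hβK]
        push_cast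
        have e3 := mul_le_mul_of_nonneg_left ht2 (show (0 : ℝ) ≤ K by linarith)
        nlinarith
      have h5 := hK0 t H hH T (fun p hp => by
        obtain ⟨g1, g2, g3, q, q1, q2, q3⟩ := hT p hp
        rw [← hx] at *
        exact ⟨g1, g2, g3, q, q1, q2, q3.trans (mul_le_mul_of_nonneg_right h3 (Nat.cast_nonneg _))⟩)
        hone
      rw [← hx] at h5
      refine h5.trans ?_
      have h6 : x ^ (1 / 16 : ℝ) * x ^ (-(1 / 8 : ℝ)) ≤ x ^ (-(β / 4)) := by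
        rw [← Real.rpow_add hx0]
        apply Real.rpow_le_rpow_of_exponent_le hx1
        linarith
      have h7 : 0 ≤ x ^ (-(1 / 8 : ℝ)) := Real.rpow_nonneg hx0.le _
      have h8 : (0 : ℝ) ≤ (4 ^ K + 16) * (H : ℝ) ^ (m + 2) * x ^ (-(β / 4)) := by positivity
      calc (2 : ℝ) ^ (K0 * (t + 1)) * (H : ℝ) ^ (m + 2) * x ^ (-(1 / 8 : ℝ))
          ≤ (4 ^ K * x ^ (1 / 16 : ℝ)) * (H : ℝ) ^ (m + 2) * x ^ (-(1 / 8 : ℝ)) :=
            mul_le_mul_of_nonneg_right (mul_le_mul_of_nonneg_right h4 hHp) h7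
        _ = 4 ^ K * (H : ℝ) ^ (m + 2) * (x ^ (1 / 16 : ℝ) * x ^ (-(1 / 8 : ℝ))) := by ring
        _ ≤ 4 ^ K * (H : ℝ) ^ (m + 2) * x ^ (-(β / 4)) :=
            mul_le_mul_of_nonneg_left h6 (by positivity)
        _ ≤ (4 ^ K * 2 + 16) * (H : ℝ) ^ (m + 2) * x ^ (-(β / 4)) := by linarith
    · have h3 : x ^ β ≤ 1 := Real.rpow_le_one hx0.le hx1.le hβ0.le
      have h5 := hK0 0 H hH T (fun p hp => by
        obtain ⟨g1, g2, g3, q, q1, q2, q3⟩ := hT p hp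
        rw [← hx] at *
        refine ⟨g1, g2, g3, q, q1, q2, q3.trans ?_⟩
        rw [pow_zero]
        exact mul_le_mul_of_nonneg_right h3 (Nat.cast_nonneg _)) hone
      rw [← hx] at h5
      refine h5.trans ?_
      have h6 : x ^ (-(1 / 8 : ℝ)) ≤ 2 := by
        rw [Real.rpow_neg hx0.le, inv_le_comm₀ (Real.rpow_pos_of_pos hx0 _) (by norm_num)]
        calc (2 : ℝ)⁻¹ = ((2 : ℝ)⁻¹) ^ (1 : ℝ) := (Real.rpow_one _).symm
          _ ≤ ((2 : ℝ)⁻¹) ^ (1 / 8 : ℝ) := by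
              apply Real.rpow_le_rpow_of_exponent_ge (by norm_num) (by norm_num) (by norm_num)
          _ ≤ x ^ (1 / 8 : ℝ) := by
              apply Real.rpow_le_rpow (by norm_num) _ (by norm_num)
              linarith
      have h7 := hsm hx1
      have h8 : (2 : ℝ) ^ (K0 * (0 + 1)) ≤ 4 ^ K := by
        rw [zero_add, mul_one]
        calc (2 : ℝ) ^ K0 ≤ 4 ^ K0 := pow_le_pow_left₀ (by norm_num) (by norm_num) _
          _ ≤ 4 ^ K := pow_le_pow_right₀ (by norm_num) (by omega)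
      calc (2 : ℝ) ^ (K0 * (0 + 1)) * (H : ℝ) ^ (m + 2) * x ^ (-(1 / 8 : ℝ))
          ≤ 4 ^ K * (H : ℝ) ^ (m + 2) * 2 :=
            mul_le_mul (mul_le_mul_of_nonneg_right h8 hHp) h6 (Real.rpow_nonneg hx0.le _)
              (by positivity)
        _ ≤ (4 ^ K * 2 + 16) * (H : ℝ) ^ (m + 2) := by nlinarith
        _ ≤ (4 ^ K * 2 + 16) * (H : ℝ) ^ (m + 2) * x ^ (-(β / 4)) :=
            le_mul_of_one_le_right (by positivity) h7

end Pool.Agent.Helper38.FM
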