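import Pool.Agent.Helper32.DZ.Tri

set_option autoImplicit false

/-!
FM-E2 AdjOne. The cofactor of the index `1` of the tridiagonal pencil, by varying the coefficient `b 1`.
-/

open Matrix Pool.Agent.Helper32.DZ

namespace Pool.Agent.Helper38.FM

theorem tri_update {S : Type} [CommRing S] (b : ℕ → S) (c x : S) (n : ℕ) (h1 : 1 < n) :
    tri (fun k => x * dA (Function.update b 1 (b 1 - 1)) k + dB (Function.update b 1 (b 1 - 1)) k)
      (fun k => x * oA k + oB c k) n =
    (tri (fun k => x * dA b k + dB b k) (fun k => x * oA k + oB c k) n).updateRow ⟨1, h1⟩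
      ((tri (fun k => x * dA b k + dB b k) (fun k => x * oA k + oB c k) n) ⟨1, h1⟩ +
        Pi.single ⟨1, h1⟩ 1) := by
  have hd : ∀ k : ℕ, x * dA (Function.update b 1 (b 1 - 1)) k + dB (Function.update b 1 (b 1 - 1)) k =
      (x * dA b k + dB b k) + if k = 1 then 1 else 0 := by
    intro k
    have e1 : dA (Function.update b 1 (b 1 - 1)) k = dA b k := by
      unfold dA
      by_cases h0 : k = 0
      · rw [if_pos h0, if_pos h0]
      · rw [if_neg h0, if_neg h0]
        by_cases h2 : k % 2 = 1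
        · rw [if_pos h2, if_pos h2, Function.update_of_ne (by omega)]
        · rw [if_neg h2, if_neg h2]
    rw [e1]
    unfold dB
    by_cases h0 : k = 0
    · subst h0
      simp
    · rw [if_neg h0, if_neg h0]
      by_cases h2 : k % 2 = 1
      · rw [if_pos h2, if_pos h2]
        by_cases h3 : k = 1
        · subst h3
          rw [Function.update_self, if_pos rfl]
          ring
        · rw [Function.update_of_ne h3, if_neg h3, add_zero]
      · rw [if_neg h2, if_neg h2, if_neg (by omega), add_zero, add_zero]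
  ext i j
  rw [Matrix.updateRow_apply]
  simp only [tri, Matrix.of_apply, hd, Pi.add_apply]
  by_cases hi : i = ⟨1, h1⟩
  · subst hi
    rw [if_pos rfl]
    by_cases hj : j = ⟨1, h1⟩
    · subst hj
      simp
    · have hj' : ¬ (1 : ℕ) = j := fun h => hj (Fin.ext h.symm)
      have e2 : (Pi.single (⟨1, h1⟩ : Fin n) (1 : S) : Fin n → S) j = 0 :=
        Pi.single_eq_of_ne hj 1
      rw [e2, add_zero]
      simp only [hj', if_false, if_true]
  · rw [if_neg hi]
    have hi' : ¬ ((i : Fin n) : ℕ) = 1 := fun h => hi (Fin.ext h)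
    rw [if_neg hi', add_zero]

theorem tri_adj_one {S : Type} [CommRing S] (b : ℕ → S) (c x : S) (m : ℕ) (hm : 1 ≤ m)
    (h1 : 1 < 2 * m) :
    (tri (fun k => x * dA b k + dB b k) (fun k => x * oA k + oB c k) (2 * m)).adjugate
      ⟨1, h1⟩ ⟨1, h1⟩ = (-1) ^ (m - 1) * x := by
  obtain ⟨M, hM⟩ : ∃ M, M = tri (fun k => x * dA b k + dB b k) (fun k => x * oA k + oB c k) (2 * m) :=
    ⟨_, rfl⟩
  have h2 := tri_pencil (Function.update b 1 (b 1 - 1)) c x m hm
  have h3 := tri_pencil b c x m hm
  rw [tri_update b c x (2 * m) h1, Matrix.det_updateRow_add, Matrix.updateRow_eq_self,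
    ← Matrix.adjugate_apply, h3] at h2
  have h4 : ∑ i ∈ Finset.range (2 * m), Function.update b 1 (b 1 - 1) (i + 1) * x ^ (i + 1) =
      ∑ i ∈ Finset.range (2 * m), b (i + 1) * x ^ (i + 1) - x := by
    obtain ⟨q, rfl⟩ : ∃ q, m = q + 1 := ⟨m - 1, by omega⟩
    have e : 2 * (q + 1) = (2 * q + 1) + 1 := by ring
    rw [e, Finset.sum_range_succ' _ (2 * q + 1), Finset.sum_range_succ' _ (2 * q + 1)]
    have h5 : ∀ i ∈ Finset.range (2 * q + 1),
        Function.update b 1 (b 1 - 1) (i + 1 + 1) * x ^ (i + 1 + 1) =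
          b (i + 1 + 1) * x ^ (i + 1 + 1) := by
      intro i _
      rw [Function.update_of_ne (by omega)]
    rw [Finset.sum_congr rfl h5]
    simp only [zero_add, Function.update_self, pow_one]
    ring
  rw [h4] at h2
  obtain ⟨q, rfl⟩ : ∃ q, m = q + 1 := ⟨m - 1, by omega⟩
  rw [Nat.add_sub_cancel]
  have h6 : (-1 : S) ^ (q + 1) = -(-1) ^ q := by
    rw [pow_succ]
    ring
  rw [h6] at h2
  linear_combination h2

end Pool.Agent.Helper38.FM
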