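import Pool.Agent.Helper5.FM.Poly
import Pool.Agent.Helper38.FM.Points

set_option autoImplicit false

/-!
FM-E8 Bridge. The bound for pairwise inequivalent points in the form of Helper5/FM/Assembly.lean, all degrees `d ≥ 3`, and the
first moment theorem.
-/

open Pool.Agent.Helper32.DZ Pool.Agent.Helper32.FM Pool.Agent.Helper5.FM

namespace Pool.Agent.Helper38.FM

theorem class_bd (d : ℕ) (hd : 3 ≤ d) : ∃ C0 C1 c : ℝ, 0 < C0 ∧ 0 < C1 ∧ 0 < c ∧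
    ∀ H : ℕ, 2 ≤ H → ∃ E : Finset ℤ, (Even d → E = ∅) ∧
      (E.card : ℝ) ≤ C1 * H * (Real.log H) ^ (-c) ∧
      ClassBd d E H (C0 * (H : ℝ) ^ (d + 1) * (Real.log H) ^ (-c)) := by
  classical
  obtain ⟨m, rfl⟩ : ∃ m, d = m + 1 := ⟨d - 1, by omega⟩
  rcases Nat.even_or_odd m with hm | hm
  · obtain ⟨C, β, γ, hC, hβ, hγ, h⟩ := odd_points m hm (by omega)
    refine ⟨C, C, γ, by linarith, by linarith, hγ, fun H hH => ?_⟩
    obtain ⟨h1, h2⟩ := h H hH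
    have hfin : {α : ℤ | α ≠ 0 ∧ |α| ≤ (H : ℤ) ∧ ¬ ∃ q : ℕ, Squarefree q ∧ (q : ℤ) ∣ α ∧
        (H : ℝ) ≤ (Real.log H) ^ β * q}.Finite :=
      (Set.finite_Icc (-(H : ℤ)) (H : ℤ)).subset fun α hα => abs_le.1 hα.2.1
    refine ⟨hfin.toFinset, fun he => ?_, ?_, fun T hT hone => ?_⟩
    · exact absurd he (Nat.not_even_iff_odd.2 hm.add_one)
    · rw [← Set.ncard_eq_toFinset_card _ hfin]
      exact h1
    · refine h2 T (fun p hp => ?_) hone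
      obtain ⟨g1, g2, g3, g4⟩ := hT p hp
      refine ⟨g1, g2, g4, ?_⟩
      by_contra hno
      exact g3 ((Set.Finite.mem_toFinset hfin).2 ⟨g2.1, g1 _, hno⟩)
  · obtain ⟨C, hC, h⟩ := even_points m hm
    refine ⟨C, 1, 1 / 64, by linarith, one_pos, by norm_num, fun H hH => ⟨∅, fun _ => rfl, ?_, ?_⟩⟩
    · rw [Finset.card_empty, Nat.cast_zero]
      have h1 : (0 : ℝ) ≤ Real.log H := Real.log_natCast_nonneg H
      have h2 : 0 ≤ (Real.log H) ^ (-(1 / 64 : ℝ)) := Real.rpow_nonneg h1 _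
      positivity
    · intro T hT hone
      exact h H hH T (fun p hp => ⟨(hT p hp).1, (hT p hp).2.1, (hT p hp).2.2.2⟩) hone

theorem first_moment_all (d : ℕ) (hd : 3 ≤ d) : ∃ C c : ℝ, 0 < C ∧ 0 < c ∧
    ∀ H : ℕ, 2 ≤ H → ∃ E : Finset ℤ, (Even d → E = ∅) ∧
      (E.card : ℝ) ≤ C * H / (Real.log H) ^ c ∧ (PolPts d E H).Finite ∧
      ((PolPts d E H).ncard : ℝ) ≤ C * (H : ℝ) ^ (d + 1) / (Real.log H) ^ c := by
  obtain ⟨C0, C1, c, h0, h1, hc, h⟩ := class_bd d hd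
  obtain ⟨C, hC, h'⟩ := first_moment d hd C0 C1 c h0 h1 hc h
  exact ⟨C, c, hC, hc, h'⟩

end Pool.Agent.Helper38.FM
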