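import Pool.Agent.Helper32.DZ.PenLem
import Pool.Agent.Helper32.FM.Defs

set_option autoImplicit false

/-!
FM-E1 Point. `PtOf P R κ x`: the pencil `X P - R` has the point `x`: `wᵗ adj (X P - R) w = κ (X - x)` for an integral vector `w`.

This property is invariant under `g ∈ GL_N(ℤ)` (`w ↦ gᵗ w`), and two points `x`, `x'` of one symmetric pencil satisfy
`(x - θ)(x' - θ) = q(θ)^2` at the roots `θ`, because the adjugate of a singular matrix has rank one: `q = wᵗ adj (X P - R) w' / κ`.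
-/

open Polynomial Matrix Pool.Agent.Helper32.DZ Pool.Agent.Helper32.FM

namespace Pool.Agent.Helper38.FM

/-- the polynomial matrix `X P - R` -/
noncomputable def pm {N : ℕ} (P R : Matrix (Fin N) (Fin N) ℤ) : Matrix (Fin N) (Fin N) ℤ[X] :=
  (X : ℤ[X]) • P.map (C : ℤ → ℤ[X]) - R.map (C : ℤ → ℤ[X])

/-- the pencil has the point `x` -/
def PtOf {N : ℕ} (P R : Matrix (Fin N) (Fin N) ℤ) (κ x : ℤ) : Prop :=
  ∃ w : Fin N → ℤ, (fun i => (C (w i) : ℤ[X])) ⬝ᵥ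
    ((pm P R).adjugate *ᵥ (fun i => (C (w i) : ℤ[X]))) = C κ * (X - C x)

theorem pm_conj {N : ℕ} (P R g : Matrix (Fin N) (Fin N) ℤ) :
    pm (gᵀ * P * g) (gᵀ * R * g) =
      (g.map (C : ℤ → ℤ[X]))ᵀ * pm P R * g.map (C : ℤ → ℤ[X]) := by
  have h1 : ∀ A B : Matrix (Fin N) (Fin N) ℤ,
      (A * B).map (C : ℤ → ℤ[X]) = A.map (C : ℤ → ℤ[X]) * B.map (C : ℤ → ℤ[X]) := by
    intro A B
    exact Matrix.map_mul (f := (C : ℤ →+* ℤ[X]))
  have h2 : (gᵀ).map (C : ℤ → ℤ[X]) = (g.map (C : ℤ → ℤ[X]))ᵀ := rfl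
  unfold pm
  rw [h1, h1, h1, h1, h2, Matrix.mul_sub, Matrix.sub_mul, Matrix.mul_smul, Matrix.smul_mul]

theorem ptOf_conj {N : ℕ} (P R g : Matrix (Fin N) (Fin N) ℤ) (hg : g.det = 1 ∨ g.det = -1)
    (κ x : ℤ) (h : PtOf P R κ x) : PtOf (gᵀ * P * g) (gᵀ * R * g) κ x := by
  obtain ⟨w, hw⟩ := h
  obtain ⟨G, hG⟩ : ∃ G : Matrix (Fin N) (Fin N) ℤ[X], G = g.map (C : ℤ → ℤ[X]) := ⟨_, rfl⟩
  have hdet : G.det = C g.det := by
    rw [hG]
    exact (RingHom.map_det (C : ℤ →+* ℤ[X]) g).symm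
  have hdet2 : G.det * G.det = 1 := by
    rw [hdet, ← C_mul]
    rcases hg with h | h <;> rw [h] <;> simp
  refine ⟨fun i => ∑ j, g j i * w j, ?_⟩
  have hv : (fun i => (C (∑ j, g j i * w j) : ℤ[X])) = Gᵀ *ᵥ (fun i => (C (w i) : ℤ[X])) := by
    funext i
    rw [Matrix.mulVec, dotProduct, map_sum]
    refine Finset.sum_congr rfl fun j _ => ?_
    rw [C_mul, hG]
    rfl
  rw [hv, pm_conj, ← hG, Matrix.adjugate_mul_distrib, Matrix.adjugate_mul_distrib]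
  have h3 : (G.adjugate * ((pm P R).adjugate * Gᵀ.adjugate)) *ᵥ (Gᵀ *ᵥ (fun i => (C (w i) : ℤ[X]))) =
      G.det • (G.adjugate *ᵥ ((pm P R).adjugate *ᵥ (fun i => (C (w i) : ℤ[X])))) := by
    rw [Matrix.mulVec_mulVec, Matrix.mul_assoc, Matrix.mul_assoc, Matrix.adjugate_mul,
      Matrix.det_transpose, Matrix.mul_smul, Matrix.mul_one, Matrix.mul_smul, Matrix.smul_mulVec,
      Matrix.mulVec_mulVec]
  rw [h3, dotProduct_smul, Matrix.mulVec_transpose, ← Matrix.dotProduct_mulVec,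
    Matrix.mulVec_mulVec, Matrix.mul_adjugate, Matrix.smul_mulVec, Matrix.one_mulVec,
    dotProduct_smul, smul_smul, hdet2, one_smul, hw]

/-- the adjugate of a singular matrix has rank one -/
theorem adj_rank {N : ℕ} (M : Matrix (Fin N) (Fin N) ℂ) (h : M.det = 0) (u v y z : Fin N → ℂ) :
    (u ⬝ᵥ (M.adjugate *ᵥ v)) * (y ⬝ᵥ (M.adjugate *ᵥ z)) =
      (u ⬝ᵥ (M.adjugate *ᵥ z)) * (y ⬝ᵥ (M.adjugate *ᵥ v)) := by
  by_cases h0 : ∀ i j, M.adjugate i j = 0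
  · have h1 : M.adjugate = 0 := by
      ext i j
      exact h0 i j
    rw [h1]
    simp
  · push Not at h0
    obtain ⟨i, j, hij⟩ := h0
    -- kernel vectors with vanishing `i`-th coordinate vanish
    have key : ∀ b : Fin N → ℂ, M *ᵥ b = 0 → b i = 0 → b = 0 := by
      intro b hb hbi
      have h2 : (M.updateRow j (Pi.single i 1)).det ≠ 0 := by
        rw [← Matrix.adjugate_apply]
        exact hij
      refine Matrix.eq_zero_of_mulVec_eq_zero h2 ?_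
      funext k
      rw [Matrix.mulVec, Pi.zero_apply]
      by_cases hk : k = j
      · subst hk
        rw [Matrix.updateRow_self, single_dotProduct, hbi, mul_zero]
      · have h3 : (M.updateRow j (Pi.single i 1)) k = M k := Matrix.updateRow_ne hk
        rw [h3]
        exact congrFun hb k
    have hker : ∀ b : Fin N → ℂ, M *ᵥ (M.adjugate *ᵥ b) = 0 := by
      intro b
      rw [Matrix.mulVec_mulVec, Matrix.mul_adjugate, h, zero_smul, Matrix.zero_mulVec]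
    obtain ⟨p, hp⟩ : ∃ p, p = M.adjugate *ᵥ v := ⟨_, rfl⟩
    obtain ⟨q, hq⟩ : ∃ q, q = M.adjugate *ᵥ z := ⟨_, rfl⟩
    obtain ⟨c, hc⟩ : ∃ c, c = M.adjugate *ᵥ (Pi.single j 1) := ⟨_, rfl⟩
    have hci : c i ≠ 0 := by
      rw [hc, Matrix.mulVec_single_one, Matrix.col_apply]
      exact hij
    have hpc : c i • p - p i • c = 0 := by
      apply key
      · rw [Matrix.mulVec_sub, Matrix.mulVec_smul, Matrix.mulVec_smul, hp, hc, hker, hker,
          smul_zero, smul_zero, sub_zero]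
      · simp only [Pi.sub_apply, Pi.smul_apply, smul_eq_mul]
        ring
    have hqc : c i • q - q i • c = 0 := by
      apply key
      · rw [Matrix.mulVec_sub, Matrix.mulVec_smul, Matrix.mulVec_smul, hq, hc, hker, hker,
          smul_zero, smul_zero, sub_zero]
      · simp only [Pi.sub_apply, Pi.smul_apply, smul_eq_mul]
        ring
    have e1 : ∀ b : Fin N → ℂ, c i * (b ⬝ᵥ p) = p i * (b ⬝ᵥ c) := by
      intro b
      have h4 := congrArg (fun r => b ⬝ᵥ r) hpc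
      simp only [dotProduct_sub, dotProduct_smul, dotProduct_zero, smul_eq_mul] at h4
      exact sub_eq_zero.1 h4
    have e2 : ∀ b : Fin N → ℂ, c i * (b ⬝ᵥ q) = q i * (b ⬝ᵥ c) := by
      intro b
      have h4 := congrArg (fun r => b ⬝ᵥ r) hqc
      simp only [dotProduct_sub, dotProduct_smul, dotProduct_zero, smul_eq_mul] at h4
      exact sub_eq_zero.1 h4
    rw [← hp, ← hq]
    have h5 : (c i * c i) * ((u ⬝ᵥ p) * (y ⬝ᵥ q)) = (c i * c i) * ((u ⬝ᵥ q) * (y ⬝ᵥ p)) := by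
      calc (c i * c i) * ((u ⬝ᵥ p) * (y ⬝ᵥ q)) = (c i * (u ⬝ᵥ p)) * (c i * (y ⬝ᵥ q)) := by ring
        _ = (p i * (u ⬝ᵥ c)) * (q i * (y ⬝ᵥ c)) := by rw [e1, e2]
        _ = (q i * (u ⬝ᵥ c)) * (p i * (y ⬝ᵥ c)) := by ring
        _ = (c i * (u ⬝ᵥ q)) * (c i * (y ⬝ᵥ p)) := by rw [e1, e2]
        _ = _ := by ring
    exact mul_left_cancel₀ (mul_ne_zero hci hci) h5

private theorem pm_symm {N : ℕ} (P R : Matrix (Fin N) (Fin N) ℤ) (hP : P.IsSymm) (hR : R.IsSymm) :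
    (pm P R)ᵀ = pm P R := by
  ext1 i j
  simp only [pm, Matrix.transpose_apply, Matrix.sub_apply, Matrix.smul_apply, Matrix.map_apply]
  rw [hP.apply, hR.apply]

/-- two points of one symmetric pencil are in the same class -/
theorem crel_of_ptOf {N : ℕ} (P R : Matrix (Fin N) (Fin N) ℤ) (hP : P.IsSymm) (hR : R.IsSymm)
    (κ : ℤ) (hκ : κ ≠ 0) (x x' : ℤ) (h : PtOf P R κ x) (h' : PtOf P R κ x') (θ : Fin N → ℂ)
    (hθ : ∀ t, Polynomial.aeval (θ t) (pen P R) = 0) : CRel θ x x' := by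
  obtain ⟨w, hw⟩ := h
  obtain ⟨w', hw'⟩ := h'
  obtain ⟨V, hV⟩ : ∃ V : Fin N → ℤ[X], V = fun i => C (w i) := ⟨_, rfl⟩
  obtain ⟨V', hV'⟩ : ∃ V' : Fin N → ℤ[X], V' = fun i => C (w' i) := ⟨_, rfl⟩
  rw [← hV] at hw
  rw [← hV'] at hw'
  obtain ⟨q, hq⟩ : ∃ q : ℤ[X], q = V ⬝ᵥ ((pm P R).adjugate *ᵥ V') := ⟨_, rfl⟩
  have hq' : q = V' ⬝ᵥ ((pm P R).adjugate *ᵥ V) := by
    rw [hq, Matrix.dotProduct_mulVec, ← Matrix.mulVec_transpose, Matrix.adjugate_transpose,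
      pm_symm P R hP hR, dotProduct_comm]
  have hκC : (κ : ℂ) ≠ 0 := Int.cast_ne_zero.2 hκ
  refine ⟨C ((1 : ℚ) / κ) * q.map (Int.castRingHom ℚ), fun t => ?_⟩
  obtain ⟨φ, hφ⟩ : ∃ φ : ℤ[X] →+* ℂ, φ = (Polynomial.aeval (θ t)).toRingHom := ⟨_, rfl⟩
  have hφa : ∀ g : ℤ[X], φ g = Polynomial.aeval (θ t) g := by
    intro g
    rw [hφ]
    rfl
  obtain ⟨M, hM⟩ : ∃ M : Matrix (Fin N) (Fin N) ℂ, M = φ.mapMatrix (pm P R) := ⟨_, rfl⟩
  have hMd : M.det = 0 := by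
    rw [hM, ← RingHom.map_det, hφa]
    exact hθ t
  have hform : ∀ U U' : Fin N → ℤ[X], φ (U ⬝ᵥ ((pm P R).adjugate *ᵥ U')) =
      (fun i => φ (U i)) ⬝ᵥ (M.adjugate *ᵥ (fun i => φ (U' i))) := by
    intro U U'
    rw [hM, ← RingHom.map_adjugate, dotProduct, dotProduct, map_sum]
    refine Finset.sum_congr rfl fun i _ => ?_
    rw [map_mul, Matrix.mulVec, Matrix.mulVec, dotProduct, dotProduct, map_sum]
    congr 1
    refine Finset.sum_congr rfl fun j _ => ?_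
    rw [map_mul]
    rfl
  have h1 := adj_rank M hMd (fun i => φ (V i)) (fun i => φ (V i)) (fun i => φ (V' i))
    (fun i => φ (V' i))
  rw [← hform, ← hform, ← hform, ← hform, hw, hw', ← hq, ← hq', hφa, hφa, hφa] at h1
  have e1 : ∀ y : ℤ, Polynomial.aeval (θ t) (C κ * (X - C y) : ℤ[X]) =
      (κ : ℂ) * (θ t - (y : ℂ)) := by
    intro y
    simp
  rw [e1, e1] at h1
  have e2 : Polynomial.aeval (θ t) (C ((1 : ℚ) / κ) * q.map (Int.castRingHom ℚ)) =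
      (1 / (κ : ℂ)) * Polynomial.aeval (θ t) q := by
    rw [map_mul, Polynomial.aeval_C]
    congr 1
    · simp
    · rw [Polynomial.aeval_def, Polynomial.aeval_def, Polynomial.eval₂_map]
      congr 1
  rw [e2]
  have h2 : (Polynomial.aeval (θ t) q) ^ 2 = (κ : ℂ) * (θ t - (x : ℂ)) * ((κ : ℂ) * (θ t - (x' : ℂ))) := by
    rw [h1]
    ring
  rw [mul_pow, h2]
  field_simp
  ring

end Pool.Agent.Helper38.FM
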