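import Pool.Agent.Helper32.DZ.Tri
import Pool.Agent.Helper32.DZ.PropOf
import Pool.Agent.Helper38.FM.Point
import Pool.Agent.Helper38.FM.AdjOne

set_option autoImplicit false

/-!
FM-E5a PencilE. The explicit pencil of an integral point, even degree, with the property `PtOf`.

`A = tri (dA b) oA n`, `B = x₀ A - tri (dB b) (oB y₀) n`, `b` the coefficients of `f(X + x₀)`; `X A - B = (X - x₀) A + B1`; the entry
`(1, 1)` of its adjugate is `(-1)^(n/2 - 1) (X - x₀)` (`tri_adj_one`).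
-/

open Polynomial Matrix Pool.Agent.Helper32.DZ Pool.Agent.Helper32.FM

namespace Pool.Agent.Helper38.FM

theorem tri_symm' {S : Type} [Zero S] (d o : ℕ → S) (n : ℕ) : (tri d o n).IsSymm := by
  ext i j
  simp only [Matrix.transpose_apply, tri, Matrix.of_apply]
  by_cases h1 : (i : ℕ) = j
  · rw [if_pos h1.symm, if_pos h1, h1]
  · rw [if_neg (fun h => h1 h.symm), if_neg h1]
    by_cases h2 : (i : ℕ) + 1 = j
    · rw [if_pos h2, if_neg (by omega), if_pos h2]
    · rw [if_neg h2, if_neg h2]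

theorem tri_sub' {S : Type} [Zero S] (d o : ℕ → S) (r : ℕ) :
    (tri d o (r + 1)).submatrix (Fin.last r).succAbove (Fin.last r).succAbove = tri d o r := by
  ext i j
  simp only [tri, Matrix.submatrix_apply, Matrix.of_apply, Fin.succAbove_last, Fin.val_castSucc]

theorem tri_C' (b : ℕ → ℤ) (c : ℤ) (n : ℕ) (Z : ℤ[X]) :
    tri (fun k => Z * dA (fun k => (C (b k) : ℤ[X])) k + dB (fun k => (C (b k) : ℤ[X])) k)
      (fun k => Z * oA k + oB (C c) k) n =
    Z • (tri (dA b) (oA (S := ℤ)) n).map (C : ℤ → ℤ[X]) +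
      (tri (dB b) (oB c) n).map (C : ℤ → ℤ[X]) := by
  have h1 : ∀ k, dA (fun k => (C (b k) : ℤ[X])) k = C (dA b k) := by
    intro k
    unfold dA
    split_ifs <;> simp
  have h2 : ∀ k, dB (fun k => (C (b k) : ℤ[X])) k = C (dB b k) := by
    intro k
    unfold dB
    split_ifs <;> simp
  have h3 : ∀ k, (oA k : ℤ[X]) = C (oA k) := by
    intro k
    unfold oA
    split_ifs <;> simp
  have h4 : ∀ k, (oB (C c) k : ℤ[X]) = C (oB c k) := by
    intro k
    unfold oB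
    split_ifs <;> simp
  ext1 i j
  rw [Matrix.add_apply, Matrix.smul_apply, Matrix.map_apply, Matrix.map_apply]
  simp only [tri, Matrix.of_apply, smul_eq_mul]
  split_ifs
  · rw [h1, h2]
  · rw [h3, h4]
  · rw [h3, h4]
  · simp

/-- the coefficients of `f(X + x₀)` -/
theorem shift_data (r : ℕ) (a : Fin (r + 1 + 1) → ℤ) (hl : a (Fin.last (r + 1)) ≠ 0) (x₀ y₀ : ℤ)
    (hxy : y₀ ^ 2 = ∑ i, a i * x₀ ^ (i : ℕ)) :
    ∃ b : ℕ → ℤ, b 0 = y₀ ^ 2 ∧ b (r + 1) = a (Fin.last (r + 1)) ∧ b (r + 1 + 1) = 0 ∧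
      (C y₀ : ℤ[X]) ^ 2 + ∑ i ∈ Finset.range (r + 1), C (b (i + 1)) * (X - C x₀) ^ (i + 1) =
        pol a := by
  have hlast : (pol a).coeff (r + 1) = a (Fin.last (r + 1)) := by
    unfold pol
    rw [Polynomial.finsetSum_coeff, Finset.sum_eq_single (Fin.last (r + 1))]
    · rw [Polynomial.coeff_C_mul_X_pow, if_pos (by simp)]
    · intro i _ hi
      rw [Polynomial.coeff_C_mul_X_pow, if_neg]
      intro h1
      exact hi (Fin.ext (by simpa using h1.symm))
    · intro h1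
      exact absurd (Finset.mem_univ _) h1
  have hdeg_le : (pol a).natDegree ≤ r + 1 := by
    unfold pol
    refine Polynomial.natDegree_sum_le_of_forall_le _ _ ?_
    intro i _
    exact (Polynomial.natDegree_C_mul_X_pow_le _ _).trans (by have := i.isLt; omega)
  have hdeg : (pol a).natDegree = r + 1 := by
    refine le_antisymm hdeg_le ?_
    refine Polynomial.le_natDegree_of_ne_zero ?_
    rw [hlast]
    exact hl
  obtain ⟨g, hg⟩ : ∃ g : ℤ[X], g = (pol a).comp (X + C x₀) := ⟨_, rfl⟩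
  have hgdeg : g.natDegree = r + 1 := by
    rw [hg, Polynomial.natDegree_comp, Polynomial.natDegree_X_add_C, mul_one, hdeg]
  have hglead : g.coeff (r + 1) = a (Fin.last (r + 1)) := by
    have h1 : g.leadingCoeff = (pol a).leadingCoeff := by
      rw [hg, Polynomial.leadingCoeff_comp (by rw [Polynomial.natDegree_X_add_C]; norm_num),
        Polynomial.leadingCoeff_X_add_C, one_pow, mul_one]
    unfold Polynomial.leadingCoeff at h1
    rw [hgdeg, hdeg, hlast] at h1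
    exact h1
  have hg0 : g.coeff 0 = y₀ ^ 2 := by
    rw [Polynomial.coeff_zero_eq_eval_zero, hg, Polynomial.eval_comp, hxy]
    unfold pol
    simp [Polynomial.eval_finsetSum]
  have hgsum : (C y₀ : ℤ[X]) ^ 2 + ∑ i ∈ Finset.range (r + 1), C (g.coeff (i + 1)) * X ^ (i + 1) = g := by
    have h1 := g.as_sum_range_C_mul_X_pow' (n := r + 2) (by omega)
    rw [Finset.sum_range_succ'] at h1
    conv_rhs => rw [h1]
    rw [add_comm, hg0]
    simp
  refine ⟨fun k => g.coeff k, hg0, hglead, ?_, ?_⟩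
  · exact Polynomial.coeff_eq_zero_of_natDegree_lt (by omega)
  · obtain ⟨ψ, hψ⟩ : ∃ ψ : ℤ[X] →+* ℤ[X], ψ = Polynomial.compRingHom (X - C x₀) := ⟨_, rfl⟩
    have hψX : ψ X = X - C x₀ := by
      rw [hψ]
      simp
    have hψC : ∀ z : ℤ, ψ (C z) = C z := by
      intro z
      rw [hψ]
      simp
    have hψg : ψ g = pol a := by
      rw [hψ]
      simp only [Polynomial.coe_compRingHom_apply, hg]
      rw [Polynomial.comp_assoc]
      simp
    have h1 := congrArg ψ hgsum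
    rw [hψg, map_add, map_pow, map_sum, hψC] at h1
    rw [← h1]
    congr 1
    refine Finset.sum_congr rfl fun i _ => ?_
    rw [map_mul, map_pow, hψX, hψC]

theorem pt_even (k : ℕ) (hk : Odd k) (a : Fin (k + 1 + 1) → ℤ) (hl : a (Fin.last (k + 1)) ≠ 0)
    (x₀ y₀ : ℤ) (hxy : y₀ ^ 2 = ∑ i, a i * x₀ ^ (i : ℕ)) :
    ∃ A B : Matrix (Fin (k + 1)) (Fin (k + 1)) ℤ, A.IsSymm ∧ B.IsSymm ∧
      pen A B = C ((-1) ^ ((k + 1) / 2)) * pol a ∧
      (∀ g : Matrix (Fin (k + 1)) (Fin (k + 1)) ℤ, (g.det = 1 ∨ g.det = -1) →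
        PropA 1 ((-1) ^ ((k + 1) / 2 - 1)) (gᵀ * A * g)) ∧
      PtOf A B ((-1) ^ ((k + 1) / 2 - 1)) x₀ := by
  obtain ⟨m, hm, hm1⟩ : ∃ m, 2 * m = k + 1 ∧ 1 ≤ m := by
    obtain ⟨q, hq⟩ := hk
    exact ⟨q + 1, by omega, by omega⟩
  have hm2 : (k + 1) / 2 = m := by omega
  rw [hm2]
  obtain ⟨b, hb0, hbl, -, hbs⟩ := shift_data k a hl x₀ y₀ hxy
  obtain ⟨A, hAd⟩ : ∃ A : Matrix (Fin (k + 1)) (Fin (k + 1)) ℤ,
    A = tri (dA b) (oA (S := ℤ)) (k + 1) := ⟨_, rfl⟩
  obtain ⟨B1, hB1d⟩ : ∃ B1 : Matrix (Fin (k + 1)) (Fin (k + 1)) ℤ,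
    B1 = tri (dB b) (oB y₀) (k + 1) := ⟨_, rfl⟩
  have hAs : A.IsSymm := by
    rw [hAd]
    exact tri_symm' _ _ _
  have hBs : B1.IsSymm := by
    rw [hB1d]
    exact tri_symm' _ _ _
  have hpm : pm A (x₀ • A - B1) =
      tri (fun k => (X - C x₀) * dA (fun k => (C (b k) : ℤ[X])) k + dB (fun k => (C (b k) : ℤ[X])) k)
        (fun k => (X - C x₀) * oA k + oB (C y₀) k) (k + 1) := by
    rw [tri_C', ← hAd, ← hB1d]
    unfold pm
    ext1 i j
    simp only [Matrix.sub_apply, Matrix.smul_apply, Matrix.map_apply, Matrix.add_apply, smul_eq_mul,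
      map_sub, map_mul]
    ring
  have hpen := tri_pencil (fun k => (C (b k) : ℤ[X])) (C y₀) (X - C x₀) m hm1
  have hadj := tri_adj_one (fun k => (C (b k) : ℤ[X])) (C y₀) (X - C x₀) m hm1 (by omega)
  have hA := tri_A b m hm1
  have hA' := tri_A' b m hm1
  have hm3 : 2 * m - 1 = k := by omega
  rw [hm3] at hA'
  have hdet : A.det = (-1) ^ m * a (Fin.last (k + 1)) := by
    have h1 : (tri (dA b) (oA (S := ℤ)) (2 * m)).det = A.det := by
      rw [hAd, ← hm]
    rw [← h1, hA, hm, hbl]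
  have hcorner : A.adjugate (Fin.last k) (Fin.last k) = (-1) ^ (m - 1) * 1 ^ k := by
    rw [Matrix.adjugate_fin_succ_eq_det_submatrix, hAd, tri_sub', hA', one_pow, mul_one,
      ← two_mul, pow_mul]
    norm_num
  refine ⟨A, x₀ • A - B1, hAs, (hAs.smul x₀).sub hBs, ?_, ?_, ?_⟩
  · have h1 : pen A (x₀ • A - B1) = (pm A (x₀ • A - B1)).det := rfl
    rw [h1, hpm]
    have h2 : ∀ (n n' : ℕ) (_ : n = n') (d o : ℕ → ℤ[X]), (tri d o n).det = (tri d o n').det := by
      intro n n' h d o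
      rw [h]
    rw [h2 (k + 1) (2 * m) hm.symm, hpen, hm, hbs, map_pow, map_neg, map_one]
  · intro g hg
    refine propA_of k hk a x₀ 1 1 y₀ 1 ((-1) ^ (m - 1)) (neg_one_pow_eq_or ℤ _) ?_ ?_ one_ne_zero ?_ A
      hAs ?_ hcorner g hg
    · exact isCoprime_one_right
    · norm_num
    · rw [hxy]
      refine Finset.sum_congr rfl fun i _ => ?_
      rw [one_pow, mul_one]
    · rcases neg_one_pow_eq_or ℤ m with h | h
      · left
        rw [hdet, h, one_mul]
      · right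
        rw [hdet, h, neg_one_mul]
  · have h1k : 1 < k + 1 := by omega
    refine ⟨Pi.single ⟨1, h1k⟩ 1, ?_⟩
    have hv : (fun i => (C ((Pi.single (⟨1, h1k⟩ : Fin (k + 1)) (1 : ℤ) : Fin (k + 1) → ℤ) i) : ℤ[X])) =
        Pi.single (⟨1, h1k⟩ : Fin (k + 1)) (1 : ℤ[X]) := by
      funext i
      by_cases hi : i = ⟨1, h1k⟩
      · subst hi
        simp
      · rw [Pi.single_eq_of_ne hi, Pi.single_eq_of_ne hi, map_zero]
    rw [hv, Matrix.mulVec_single_one, single_dotProduct, one_mul, Matrix.col_apply, hpm]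
    have h2 : ∀ (n n' : ℕ) (_ : n = n') (h : 1 < n) (h' : 1 < n') (d o : ℕ → ℤ[X]),
        (tri d o n).adjugate ⟨1, h⟩ ⟨1, h⟩ = (tri d o n').adjugate ⟨1, h'⟩ ⟨1, h'⟩ := by
      intro n n' e h h' d o
      subst e
      rfl
    rw [h2 (k + 1) (2 * m) hm.symm h1k (by omega), hadj, map_pow, map_neg, map_one]

end Pool.Agent.Helper38.FM
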